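import Pool.Agent.Helper30.AC.Stmts

/-!
# The conclusion (row FIN)
-/

set_option autoImplicit false

namespace Pool.Agent.Helper81.AC

open Filter Topology Pool.Agent.Helper30.AC

universe u v

theorem st_FIN (h1 : ST_COM.{u}) (h2 : ST_FUN.{u}) (h3 : ST_NOT.{u}) (h4 : ST_HUL.{u})
    (h5 : ST_R2C.{u, v}) : ST_FIN.{u, v} := by
  intro 𝕜 _ E _ _ _ _ _ hE
  have hR : ¬ HasApproximationProperty ℝ E := fun h => hE (h5 𝕜 E h)
  unfold HasApproximationProperty at hR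
  push Not at hR
  obtain ⟨K0, hK0, ε, hε, hT⟩ := hR
  obtain ⟨K, hG, hsub, y, hy⟩ := h4 E K0 hK0
  obtain ⟨f, hf1, hf2, hf3⟩ := h2 E K y hG hy
  obtain ⟨hc, hconv⟩ := h1 E K y hG
  refine ⟨XX K y, hc, hconv, f, hf1, hf2, fun hcon => ?_⟩
  obtain ⟨T, hT1, hT2⟩ := h3 E K y f hG hf3 hcon ε hε
  obtain ⟨x, hx, hx2⟩ := hT T hT1
  exact absurd (hT2 x (hsub hx)) (not_lt.2 hx2)

end Pool.Agent.Helper81.AC
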